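import Pool.Agent.H80.BT.D

set_option autoImplicit false

namespace Pool.Agent.Results.MP_c971d3_al.StabiliserExponent

/-- In a perfect locally finite barely transitive `p`-group no coset of the pointwise stabiliser
of a finite set satisfies a power law modulo a proper normal subgroup: for every proper normal
subgroup `N`, finite set `Δ`, element `g` and exponent `n > 0` there is `h` fixing `Δ` pointwise
with `(g * h) ^ n ∉ N`. In particular (`g = 1`) point stabilisers, and all pointwise stabilisers of
finite sets, have infinite exponent, even modulo any proper normal subgroup. -/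
theorem result (G : Type*) [Group G] (Ω : Type*) [MulAction G Ω] [Infinite Ω]
    [MulAction.IsPretransitive G Ω]
    (hBT : ∀ K : Subgroup G, K ≠ ⊤ → ∀ ω : Ω, (Set.range (fun k : K => (k : G) • ω)).Finite)
    (hLF : ∀ s : Set G, s.Finite → ((Subgroup.closure s : Subgroup G) : Set G).Finite)
    (p : ℕ) (hp : p.Prime) (hpG : IsPGroup p G) (hperf : commutator G = ⊤)
    (N : Subgroup G) [N.Normal] (hN : N ≠ ⊤) (Δ : Set Ω) (hΔ : Δ.Finite) (g : G)
    (n : ℕ) (hn : 0 < n) :
    ∃ h : G, (∀ ω ∈ Δ, h • ω = ω) ∧ (g * h) ^ n ∉ N :=
  (Pool.Agent.H80.BT.Ctx.mk (p := p) inferInstance inferInstance hBT hLF hperf hp hpG).main hN hΔ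
    g n hn

end Pool.Agent.Results.MP_c971d3_al.StabiliserExponent
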